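import Pool.Agent.OM247.NoFive
import Pool.Agent.OM247.Exist

namespace Pool.Agent.Results.MP_247007_co.LogBound

open Pool.Agent.OM247

/-- `orank(Σ_N) = log₂ N + 1` for `N = 2, 4, 8`, and `orank(Σ_N) ≥ log₂ N + 2` for all larger
`N = 2 ^ n`. -/
theorem result :
    (∀ n : ℕ, 1 ≤ n → n ≤ 3 → IsLeast {r : ℕ | Completes n r} (n + 1)) ∧
      (∀ n r : ℕ, 4 ≤ n → Completes n r → n + 2 ≤ r) := by
  refine ⟨?_, fun n r hn h => completes_lower hn h⟩
  intro n h1 h3
  refine ⟨?_, fun r hr => completes_lt hr⟩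
  interval_cases n
  · exact completes_one
  · exact completes_two
  · exact completes_three

end Pool.Agent.Results.MP_247007_co.LogBound
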