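import Pool.Agent.OM247.NoFive
import Pool.Agent.OM247.Exist

namespace Pool.Agent.Results.MP_247007_co.OrankSixteen

open Pool.Agent.OM247

/-- `orank(Σ_16) = 6`. -/
theorem result : IsLeast {r : ℕ | Completes 4 r} 6 :=
  ⟨completes_four, fun _ hr => completes_lower le_rfl hr⟩

end Pool.Agent.Results.MP_247007_co.OrankSixteen
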