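import Pool.Agent.OM247.Lower
import Pool.Agent.OM247.Exist
import Pool.Agent.OM247.RealGap
import Pool.Agent.OM247.RealFive

namespace Pool.Agent.Results.MP_247007_co.SignRankGap

open Pool.Agent.OM247

/-- `orank(Σ_8) = 4`, but the sign rank of the Sylvester Hadamard matrix of order 8 is 5. -/
theorem result : IsLeast {r : ℕ | Completes 3 r} 4 ∧ IsLeast {r : ℕ | SignRep 3 r} 5 :=
  ⟨⟨completes_three, fun _ hr => hr.uniform.lt⟩,
    ⟨signRep_three_five, fun _ hr => signRep_three_ge hr⟩⟩

end Pool.Agent.Results.MP_247007_co.SignRankGap
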