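import Pool.Agent.OM247.Upper

/-!
MP_247007_co: for every `N = 2 ^ n`, the completion rank of the rows of the Sylvester Hadamard
matrix of order `N` is `O(N ^ 0.7019)`: explicit realizable oriented matroids of rank `c * 7 ^ q`,
for `n = 4 * q + k` and `c = 1, 2, 3, 5` for `k = 0, 1, 2, 3`.
-/

namespace Pool.Agent.Results.MP_247007_co.UpperBound

open Pool.Agent.OM247

/-- Both a sign representation in dimension `r` and an oriented matroid of rank `r`. -/
theorem both {n r : ℕ} (h : SRep n r) : SRep n r ∧ Completes n r := ⟨h, h.completes⟩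

theorem result (q : ℕ) :
    (SRep (4 * q) (7 ^ q) ∧ Completes (4 * q) (7 ^ q)) ∧
    (SRep (4 * q + 1) (7 ^ q * 2) ∧ Completes (4 * q + 1) (7 ^ q * 2)) ∧
    (SRep (4 * q + 2) (7 ^ q * 3) ∧ Completes (4 * q + 2) (7 ^ q * 3)) ∧
    (SRep (4 * q + 3) (7 ^ q * 5) ∧ Completes (4 * q + 3) (7 ^ q * 5)) :=
  ⟨both (sRep_four_mul q), both ((sRep_four_mul q).mul sRep_1),
    both ((sRep_four_mul q).mul sRep_2), both ((sRep_four_mul q).mul sRep_3)⟩

end Pool.Agent.Results.MP_247007_co.UpperBound
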